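import Pool.Agent.H78.KP.Stmts
import Pool.Agent.H72.KG.HBB

/-!
# Project KP, module NSS: one step for the pairing of the position with a vector field
-/

set_option autoImplicit false

open MeasureTheory Set Filter Topology
open scoped ContDiff

namespace Pool.Agent.H78.KP

open Pool.Agent.H84 Pool.Agent.H84.Sym Pool.Agent.H84.Sym.P2x Pool.Agent.H19.KL
open Pool.Agent.H73.KG Pool.Agent.H20.KH

section aux

variable {E : Type} [NormedAddCommGroup E] [InnerProductSpace ℝ E]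
    [FiniteDimensional ℝ E] [MeasurableSpace E] [BorelSpace E]
variable {ι : Type} [Fintype ι]

omit [FiniteDimensional ℝ E] [MeasurableSpace E] [BorelSpace E] in
theorem NSS_gcT {f : E → ℝ} (hf : Tst f) : GC f := by
  obtain ⟨A, hA⟩ := hf.1.continuous.bounded_above_of_compact_support hf.2
  exact ⟨hf.1.continuous, Gr.of_bdd hA⟩

omit [InnerProductSpace ℝ E] [FiniteDimensional ℝ E] [MeasurableSpace E] [BorelSpace E] in
theorem NSS_gcL {Ψ : E → ℝ} (h : ∃ Λ : ℝ, ∀ x y, |Ψ x - Ψ y| ≤ Λ * ‖x - y‖) : GC Ψ := by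
  obtain ⟨Λ, hΛ⟩ := h
  have hL : ∀ x y, |Ψ x - Ψ y| ≤ |Λ| * ‖x - y‖ := fun x y =>
    (hΛ x y).trans (mul_le_mul_of_nonneg_right (le_abs_self _) (norm_nonneg _))
  constructor
  · have : LipschitzWith (Real.toNNReal |Λ|) Ψ := LipschitzWith.of_dist_le_mul (fun x y => by
      rw [Real.dist_eq, dist_eq_norm, Real.coe_toNNReal _ (abs_nonneg _)]; exact hL x y)
    exact this.continuous
  · refine ⟨|Ψ 0| + |Λ|, 1, fun x => ?_⟩
    have h1 := hL x 0
    rw [sub_zero] at h1
    have h2 : |Ψ x| ≤ |Ψ 0| + |Λ| * ‖x‖ := by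
      have := abs_sub_abs_le_abs_sub (Ψ x) (Ψ 0)
      linarith
    have h3 := Real.add_one_le_exp (1 * ‖x‖)
    have h5 := norm_nonneg x
    have h4 : (1:ℝ) ≤ Real.exp (1 * ‖x‖) := by linarith
    have h6 : ‖x‖ ≤ Real.exp (1 * ‖x‖) := by linarith
    nlinarith [mul_le_mul_of_nonneg_left h4 (abs_nonneg (Ψ 0)),
      mul_le_mul_of_nonneg_left h6 (abs_nonneg Λ)]

theorem NSS_comm (V f g : E → ℝ) :
    Pool.Agent.H73.KG.cv V f g = Pool.Agent.H73.KG.cv V g f := by
  unfold Pool.Agent.H73.KG.cv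
  rw [mul_comm (∫ x, f x ∂(mu V))]
  congr 1
  congr 1
  funext x
  rw [mul_comm]

/-- linearity of the covariance in the second argument -/
theorem NSS_lin {V : E → ℝ} {t : ℝ} (hV : PP V t) {f : E → ℝ} (hf : GC f) (F : ι → E → ℝ)
    (hF : ∀ m, GC (F m)) (c : ι → ℝ) :
    Pool.Agent.H73.KG.cv V f (fun x => ∑ m, c m * F m x) =
      ∑ m, c m * Pool.Agent.H73.KG.cv V f (F m) := by
  obtain ⟨⟨C, hU⟩, hp⟩ := hV
  have i1 : ∀ k, Integrable (fun x => c k * F k x) (mu V) := fun k =>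
    ((hF k).integrable hU).const_mul _
  have i2 : ∀ k, Integrable (fun x => c k * (f x * F k x)) (mu V) := fun k =>
    ((hf.mul (hF k)).integrable hU).const_mul _
  unfold Pool.Agent.H73.KG.cv
  have e1 : ∫ x, f x * ∑ k, c k * F k x ∂(mu V) = ∑ k, c k * ∫ x, f x * F k x ∂(mu V) := by
    have : (fun x => f x * ∑ k, c k * F k x) = fun x => ∑ k, c k * (f x * F k x) := by
      funext x
      rw [Finset.mul_sum]
      exact Finset.sum_congr rfl fun k _ => by ring
    rw [this, integral_finsetSum _ fun k _ => i2 k]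
    exact Finset.sum_congr rfl fun k _ => integral_const_mul _ _
  have e2 : ∫ x, ∑ k, c k * F k x ∂(mu V) = ∑ k, c k * ∫ x, F k x ∂(mu V) := by
    rw [integral_finsetSum _ fun k _ => i1 k]
    exact Finset.sum_congr rfl fun k _ => integral_const_mul _ _
  rw [e1, e2, Finset.mul_sum, ← Finset.sum_sub_distrib]
  exact Finset.sum_congr rfl fun k _ => by ring

omit [FiniteDimensional ℝ E] [MeasurableSpace E] [BorelSpace E] in
theorem NSS_norm (b : OrthonormalBasis ι ℝ E) (x : ι → ℝ) :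
    ‖∑ i, x i • b i‖ ^ 2 = ∑ i, x i ^ 2 := by
  classical
  rw [← b.sum_sq_norm_inner_right]
  refine Finset.sum_congr rfl fun i _ => ?_
  have : inner ℝ (b i) (∑ j, x j • b j) = x i := by
    rw [inner_sum]
    simp [inner_smul_right, b.inner_eq_ite]
  rw [this, Real.norm_eq_abs, sq_abs]

/-- product of contractions -/
theorem NSS_ct (hBAS : BASStmt E) {V : E → ℝ} {T : ℝ} (hV : PP V T) (hT : 0 < T)
    (b : OrthonormalBasis ι ℝ E) {O : Matrix ι ι ℝ} (hO : CT O) :
    CT (Matrix.of fun i m => T * ∑ k, cv V (li (b i)) (li (b k)) * O k m) := by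
  intro x y
  have hlg := fun e : E => HBB_gc_li (E := E) e
  set x' : ι → ℝ := fun k => ∑ i, x i * cv V (li (b i)) (li (b k)) with hx'
  have e1 : ∑ i, ∑ m, (Matrix.of fun i m => T * ∑ k, cv V (li (b i)) (li (b k)) * O k m) i m *
      (x i * y m) = T * ∑ k, ∑ m, O k m * (x' k * y m) := by
    simp only [Matrix.of_apply, hx', Finset.mul_sum, Finset.sum_mul]
    calc _ = ∑ i, ∑ k, ∑ m, T * (cv V (li (b i)) (li (b k)) * O k m) * (x i * y m) :=
          Finset.sum_congr rfl fun i _ => Finset.sum_comm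
      _ = ∑ k, ∑ i, ∑ m, T * (cv V (li (b i)) (li (b k)) * O k m) * (x i * y m) :=
          Finset.sum_comm
      _ = ∑ k, ∑ m, ∑ i, T * (cv V (li (b i)) (li (b k)) * O k m) * (x i * y m) :=
          Finset.sum_congr rfl fun k _ => Finset.sum_comm
      _ = _ := by
          refine Finset.sum_congr rfl fun k _ => Finset.sum_congr rfl fun m _ =>
            Finset.sum_congr rfl fun i _ => ?_
          ring
  rw [e1, mul_pow]
  have h1 := hO x' y
  set w : E := ∑ i, x i • b i with hw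
  set w' : E := ∑ k, x' k • b k with hw'
  set S := ∑ k, x' k ^ 2 with hS
  have hS0 : 0 ≤ S := Finset.sum_nonneg fun k _ => sq_nonneg _
  have e2 : ∀ k, cv V (li w) (li (b k)) = x' k := by
    intro k
    rw [NSS_comm, HBB_cv_sum hV (hlg _) b x]
    exact Finset.sum_congr rfl fun i _ => by rw [NSS_comm]
  have e3 : cv V (li w) (li w') = S := by
    rw [HBB_cv_sum hV (hlg _) b x']
    exact Finset.sum_congr rfl fun k _ => by rw [e2, pow_two]
  have h2 := (hBAS.2.2.2.1 V T hV _ _ (hlg w) (hlg w')).1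
  rw [e3] at h2
  have h3 : cv V (li w) (li w) ≤ 1 / T * ∑ i, x i ^ 2 := by
    rw [← NSS_norm b x]
    exact hBAS.2.2.2.2.1 V T hV w
  have h4 : cv V (li w') (li w') ≤ 1 / T * S := by
    rw [hS, ← NSS_norm b x']
    exact hBAS.2.2.2.2.1 V T hV w'
  have h5 : 0 ≤ cv V (li w) (li w) := (hBAS.2.2.2.1 V T hV _ _ (hlg w) (hlg w)).2.1
  have h6 : 0 ≤ cv V (li w') (li w') := (hBAS.2.2.2.1 V T hV _ _ (hlg w') (hlg w')).2.1
  have hX : 0 ≤ ∑ i, x i ^ 2 := Finset.sum_nonneg fun i _ => sq_nonneg _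
  have hY : 0 ≤ ∑ i, y i ^ 2 := Finset.sum_nonneg fun i _ => sq_nonneg _
  have h7 : T ^ 2 * S ≤ ∑ i, x i ^ 2 := by
    rcases hS0.eq_or_lt with h | h
    · rw [← h, mul_zero]; exact hX
    · have h8 : S ^ 2 ≤ (1 / T * ∑ i, x i ^ 2) * (1 / T * S) :=
        h2.trans (mul_le_mul h3 h4 h6 (h5.trans h3))
      have h9 : T ^ 2 * S ^ 2 ≤ (∑ i, x i ^ 2) * S := by
        calc T ^ 2 * S ^ 2 ≤ T ^ 2 * ((1 / T * ∑ i, x i ^ 2) * (1 / T * S)) :=
              mul_le_mul_of_nonneg_left h8 (by positivity)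
          _ = _ := by field_simp
      have h10 : (T ^ 2 * S) * S ≤ (∑ i, x i ^ 2) * S := by
        calc _ = T ^ 2 * S ^ 2 := by ring
          _ ≤ _ := h9
      exact le_of_mul_le_mul_right h10 h
  calc T ^ 2 * (∑ k, ∑ m, O k m * (x' k * y m)) ^ 2 ≤ T ^ 2 * (S * ∑ l, y l ^ 2) :=
        mul_le_mul_of_nonneg_left h1 (by positivity)
    _ = (T ^ 2 * S) * ∑ l, y l ^ 2 := by ring
    _ ≤ _ := mul_le_mul_of_nonneg_right h7 hY

theorem NSS_EXsum (hBAY : BAYStmt E) {U : E → ℝ} {t : ℝ} (hU : PP U t) {s : ℝ} (hs : 0 ≤ s)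
    {κ : Type} (J : Finset κ) (G : κ → E → ℝ) (hG : ∀ k, GC (G k)) :
    EX U s (fun θ => ∑ k ∈ J, G k θ) = ∑ k ∈ J, EX U s (G k) := by
  classical
  obtain ⟨-, b2, -, b4, -, -, -⟩ := hBAY U t hU s hs
  induction J using Finset.induction_on with
  | empty => simpa using b4 0
  | insert a J ha ih =>
    simp only [Finset.sum_insert ha]
    rw [b2 (G a) (fun θ => ∑ i ∈ J, G i θ) (hG a) (GC.sum hG), ih]

end aux

theorem nss_thm (E : Type) [NormedAddCommGroup E] [InnerProductSpace ℝ E]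
    [FiniteDimensional ℝ E] [MeasurableSpace E] [BorelSpace E]
    (hCOV : COVStmt E) (hBAS : BASStmt E) (hPWB : PWBStmt E) (hRGC : RGCStmt E)
    (hRGP : RGPStmt E) (hCVR : CVRStmt E) (hBAY : BAYStmt E) : NSSStmt E := by
  intro ι _ b F Ψ hND t h c ε c' ε' ht hh hc hε hc' hε' hN hN' U hU O hO
  have hr6 := hRGC.2.2.2.2.2.1
  have hFg : ∀ m, GC (F m) := fun m => NSS_gcT (hND.tst m)
  have hΨg : GC Ψ := NSS_gcL hND.lip
  have hΨ0 : ∀ x, 0 ≤ Ψ x := by
    intro x
    have := hND.dom 0 (fun x y => by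
      simp only [Matrix.zero_apply, zero_mul, Finset.sum_const_zero]
      have h1 : 0 ≤ ∑ k, x k ^ 2 := Finset.sum_nonneg fun k _ => sq_nonneg _
      have h2 : 0 ≤ ∑ k, y k ^ 2 := Finset.sum_nonneg fun k _ => sq_nonneg _
      nlinarith [mul_nonneg h1 h2]) x
    simpa using this
  set G : ι → E → ℝ := fun k x => ∑ m, O k m * F m x with hG
  have hGg : ∀ k, GC (G k) := fun k => GC.sum fun m => (GC.const _).mul (hFg m)
  set I := ∫ x, Ψ x ∂(mu U) with hI
  have hpmΨ : ∀ s, 0 < s → GC (fun θ => pm U s θ Ψ) := fun s hs =>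
    (hr6 _ (hRGP U t hU Ψ hΨg).1 s hs).1
  have hpm0 : ∀ s, 0 ≤ s → ∀ θ, 0 ≤ pm U s θ Ψ := by
    intro s hs θ
    rw [← (hPWB U t hU).2.1 s θ hs]
    exact integral_nonneg hΨ0
  have hEXlin : ∀ s, 0 < s → ∀ a p q : ℝ, EX U s (fun θ => a * (p * pm U s θ Ψ + q)) =
      a * (p * I + q) := by
    intro s hs a p q
    obtain ⟨-, b2, b3, b4, -, -, b7⟩ := hBAY U t hU s hs.le
    rw [b3, b2 (fun θ => p * pm U s θ Ψ) (fun _ => q) ((GC.const _).mul (hpmΨ s hs))
      (GC.const _), b3, b4, b7 Ψ hΨg]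
  -- the last time
  have hend : ∑ k, EX U h (fun θ => cv (pw U h θ) (li (b k)) (G k)) ≤ c' * I + ε' := by
    have hg : ∀ k, GC (fun θ => cv (pw U h θ) (li (b k)) (G k)) := fun k =>
      (hr6 _ (hCVR U t hU _ _ (HBB_gc_li (b k)) (hGg k)) h hh).1
    rw [← NSS_EXsum hBAY hU hh.le Finset.univ _ hg]
    have e := hEXlin h hh 1 c' ε'
    rw [one_mul] at e
    rw [← e]
    refine (hBAY U t hU h hh.le).2.2.2.2.1 _ _ (GC.sum hg)
      ((GC.const _).mul (((GC.const _).mul (hpmΨ h hh)).add (GC.const _))) fun θ => ?_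
    have h1 := hN' (pw U h θ) ((hPWB U t hU).1 h θ hh.le) O hO
    rw [(hPWB U t hU).2.1 h θ hh.le] at h1
    rw [one_mul]
    exact h1
  -- intermediate times
  have hgi : ∀ s, 0 < s → ∀ k, GC (fun θ => ∑ i, cv (pw U s θ) (li (b k)) (li (b i)) *
      cv (pw U s θ) (G k) (li (b i))) := by
    intro s hs k
    refine GC.sum fun i => ?_
    exact (hr6 _ (hCVR U t hU _ _ (HBB_gc_li (b k)) (HBB_gc_li (b i))) s hs).1.mul
      (hr6 _ (hCVR U t hU _ _ (hGg k) (HBB_gc_li (b i))) s hs).1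
  have hmid : ∀ s, 0 < s → ∑ k, EX U s (fun θ => ∑ i, cv (pw U s θ) (li (b k)) (li (b i)) *
      cv (pw U s θ) (G k) (li (b i))) ≤ 1 / t * (c * I + ε) := by
    intro s hs
    rw [← NSS_EXsum hBAY hU hs.le Finset.univ _ (hgi s hs), ← hEXlin s hs (1 / t) c ε]
    refine (hBAY U t hU s hs.le).2.2.2.2.1 _ _ (GC.sum (hgi s hs))
      ((GC.const _).mul (((GC.const _).mul (hpmΨ s hs)).add (GC.const _))) fun θ => ?_
    have hV := (hPWB U t hU).1 s θ hs.le
    have hts : 0 < t + s := by linarith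
    have hV' : PP (pw U s θ) t := hBAS.1 _ _ _ hV ht (by linarith)
    have h1 := hN _ hV' _ (NSS_ct hBAS hV hts b hO)
    rw [(hPWB U t hU).2.1 s θ hs.le] at h1
    have e1 : ∑ k, cv (pw U s θ) (li (b k)) (fun x => ∑ m, (Matrix.of fun i m =>
        (t + s) * ∑ k, cv (pw U s θ) (li (b i)) (li (b k)) * O k m) k m * F m x) =
        (t + s) * ∑ k, ∑ i, cv (pw U s θ) (li (b k)) (li (b i)) *
          cv (pw U s θ) (G k) (li (b i)) := by
      have e2 : ∀ k i, cv (pw U s θ) (G k) (li (b i)) =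
          ∑ m, O k m * cv (pw U s θ) (li (b i)) (F m) := by
        intro k i
        rw [NSS_comm]
        exact NSS_lin hV (HBB_gc_li _) F hFg (O k)
      have e3 : ∀ k, cv (pw U s θ) (li (b k)) (fun x => ∑ m, (Matrix.of fun i m =>
        (t + s) * ∑ k, cv (pw U s θ) (li (b i)) (li (b k)) * O k m) k m * F m x) =
        ∑ m, (t + s) * (∑ j, cv (pw U s θ) (li (b k)) (li (b j)) * O j m) *
          cv (pw U s θ) (li (b k)) (F m) := fun k =>
        NSS_lin hV (HBB_gc_li _) F hFg _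
      rw [Finset.sum_congr rfl (fun k _ => e3 k)]
      simp only [e2, Finset.mul_sum, Finset.sum_mul]
      calc _ = ∑ i, ∑ k, ∑ m, (t + s) * (cv (pw U s θ) (li (b i)) (li (b k)) * O k m) *
            cv (pw U s θ) (li (b i)) (F m) := Finset.sum_congr rfl fun i _ => Finset.sum_comm
        _ = ∑ k, ∑ i, ∑ m, (t + s) * (cv (pw U s θ) (li (b i)) (li (b k)) * O k m) *
            cv (pw U s θ) (li (b i)) (F m) := Finset.sum_comm
        _ = _ := by
            refine Finset.sum_congr rfl fun k _ => Finset.sum_congr rfl fun i _ =>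
              Finset.sum_congr rfl fun m _ => ?_
            rw [NSS_comm (pw U s θ) (li (b k)) (li (b i))]
            ring
    rw [e1] at h1
    have h2 : 0 ≤ c * pm U s θ Ψ + ε := add_nonneg (mul_nonneg hc (hpm0 s hs.le θ)) hε
    have h3 : ∑ k, ∑ i, cv (pw U s θ) (li (b k)) (li (b i)) *
          cv (pw U s θ) (G k) (li (b i)) ≤ 1 / (t + s) * (c * pm U s θ Ψ + ε) := by
      rw [one_div, ← div_eq_inv_mul, le_div_iff₀ hts, mul_comm]
      exact h1
    refine h3.trans (mul_le_mul_of_nonneg_right ?_ h2)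
    exact one_div_le_one_div_of_le ht (by linarith)
  have hcov : ∀ k, cv U (li (b k)) (G k) =
      EX U h (fun θ => cv (pw U h θ) (li (b k)) (G k)) +
      ∫ s in (0:ℝ)..h, EX U s (fun θ => ∑ i, cv (pw U s θ) (li (b k)) (li (b i)) *
        cv (pw U s θ) (G k) (li (b i))) := fun k =>
    (hCOV U t hU _ _ (HBB_gc_li (b k)) (hGg k) ι b h hh).2
  have hint : ∀ k, IntervalIntegrable (fun s => EX U s (fun θ => ∑ i,
      cv (pw U s θ) (li (b k)) (li (b i)) * cv (pw U s θ) (G k) (li (b i)))) volume 0 h := fun k =>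
    (hCOV U t hU _ _ (HBB_gc_li (b k)) (hGg k) ι b h hh).1
  calc ∑ k, cv U (li (b k)) (fun x => ∑ m, O k m * F m x)
      = ∑ k, (EX U h (fun θ => cv (pw U h θ) (li (b k)) (G k)) +
        ∫ s in (0:ℝ)..h, EX U s (fun θ => ∑ i, cv (pw U s θ) (li (b k)) (li (b i)) *
        cv (pw U s θ) (G k) (li (b i)))) := Finset.sum_congr rfl fun k _ => hcov k
    _ = (∑ k, EX U h (fun θ => cv (pw U h θ) (li (b k)) (G k))) +
        ∫ s in (0:ℝ)..h, ∑ k, EX U s (fun θ => ∑ i, cv (pw U s θ) (li (b k)) (li (b i)) *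
        cv (pw U s θ) (G k) (li (b i))) := by
        rw [Finset.sum_add_distrib, intervalIntegral.integral_finsetSum fun k _ => hint k]
    _ ≤ (c' * I + ε') + h * (1 / t * (c * I + ε)) := by
        refine add_le_add hend ?_
        calc _ ≤ ∫ s in (0:ℝ)..h, 1 / t * (c * I + ε) := by
              refine intervalIntegral.integral_mono_on_of_le_Ioo hh.le ?_
                intervalIntegrable_const fun s hs => hmid s hs.1
              have h9 := IntervalIntegrable.sum Finset.univ fun k (_ : k ∈ Finset.univ) => hint k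
              have h10 : (∑ k, fun s => EX U s (fun θ => ∑ i,
                  cv (pw U s θ) (li (b k)) (li (b i)) * cv (pw U s θ) (G k) (li (b i)))) =
                  fun s => ∑ k, EX U s (fun θ => ∑ i,
                  cv (pw U s θ) (li (b k)) (li (b i)) * cv (pw U s θ) (G k) (li (b i))) := by
                funext s
                rw [Finset.sum_apply]
              rw [h10] at h9
              exact h9
          _ = _ := by
              rw [intervalIntegral.integral_const, sub_zero, smul_eq_mul]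
    _ = (h / t * c + c') * I + (h / t * ε + ε') := by ring

end Pool.Agent.H78.KP
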